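import Pool.Agent.Lib.H8.CeConst

/-!
MP_f76ce6_lc: for countably many constants and no laws, the isomorphism relations for one and for
two generators are bireducible and lie strictly below the complete degree.
-/

namespace Pool.Agent.Results.MP_f76ce6_lc.Yes

open Pool.Agent.Lib.H8 Arith CList CeAlg CeConst

/-- `E` is a `Σ⁰₃`-complete equivalence relation. -/
def Complete (E : ℕ → ℕ → Prop) : Prop :=
  Equivalence E ∧ Sig 3 (ℕ × ℕ) (fun p => E p.1 p.2) ∧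
    ∀ F : ℕ → ℕ → Prop, Equivalence F → Sig 3 (ℕ × ℕ) (fun p => F p.1 p.2) → Red F E

abbrev U : Set ℕ := Set.univ

def k (c : ℕ) : U := ⟨c, trivial⟩

theorem cU : ComputablePred (· ∈ U) :=
  (ceq (Computable.const 0) (Computable.const 0)).of_eq fun _ => by simp

theorem tn (n e c d : ℕ) : TN n U e (n + c) (n + d) ↔ Th n U e (.inr (k c)) (.inr (k d)) :=
  tn_iff (s := .inr (k c)) (t := .inr (k d))

def K (m e c d : ℕ) : Prop := c = d ∨ 4 ≤ c ∧ 4 ≤ d ∧ TN m U e (m + (c - 4)) (m + (d - 4)) ∨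
  c < 2 ∧ d < 2 ∧ (Ex m U e).ncard ≤ 0 ∨ c / 2 = 1 ∧ d / 2 = 1 ∧ (Ex m U e).ncard ≤ 1

theorem K_eqv (m e : ℕ) : Equivalence (K m e) := by
  have h := th_eqv (n := m) (C := U) (e := e)
  refine ⟨fun _ => Or.inl rfl, fun {c d} => ?_, fun {b c d} => ?_⟩
  · have := @h.symm (.inr (k (c - 4))) (.inr (k (d - 4)))
    simp only [K, tn]
    grind
  · have := @h.trans (.inr (k (b - 4))) (.inr (k (c - 4))) (.inr (k (d - 4)))
    simp only [K, tn]
    grind

theorem K_iff {m e i : ℕ} (h : ∀ e, (Ex m U e).ncard ≤ 2) :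
    Iso m U e i ↔ ∀ c d, K m e c d ↔ K m i c d := by
  rw [iso_iff]
  constructor
  · rintro ⟨h1, h2⟩ c d
    simp only [K, tn, h1, h2]
  · intro h1
    refine ⟨fun c d => ?_, ?_⟩
    · have := h1 (c + 4) (d + 4)
      have r := fun e => (th_eqv (n := m) (C := U) (e := e)).refl (.inr c)
      by_cases l : c = d
      · subst l
        exact iff_of_true (r _) (r _)
      · have l' : (c : ℕ) ≠ d := fun a => l (Subtype.ext a)
        simp only [K, tn, Nat.add_sub_cancel] at this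
        change (Th m U e (.inr (k c)) (.inr (k d)) ↔ Th m U i (.inr (k c)) (.inr (k d)))
        grind
    · have a := h1 0 1
      have b := h1 2 3
      have := h e
      have := h i
      simp only [K] at a b
      grind

theorem K_sig {m : ℕ} (h0 : Sig 1 ℕ fun e => (Ex m U e).ncard ≤ 0)
    (h1 : Sig 1 ℕ fun e => (Ex m U e).ncard ≤ 1) :
    Sig 1 (ℕ × ℕ × ℕ) fun q => K m q.1 q.2.1 q.2.2 := by
  have c : Primrec fun q : ℕ × ℕ × ℕ => q.2.1 := Primrec.fst.comp Primrec.snd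
  have d : Primrec fun q : ℕ × ℕ × ℕ => q.2.2 := Primrec.snd.comp Primrec.snd
  have s : Primrec fun a : ℕ => m + (a - 4) :=
    Primrec.nat_add.comp (Primrec.const m) (Primrec.nat_sub.comp Primrec.id (Primrec.const 4))
  have t : PrimrecPred fun a : ℕ => a / 2 = 1 :=
    Primrec.eq.comp (Primrec.nat_div.comp Primrec.id (Primrec.const 2)) (Primrec.const 1)
  exact (Sig.prim (Primrec.eq.comp c d)).or
    (((Sig.prim (Primrec.nat_le.comp (Primrec.const 4) c)).and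
      ((Sig.prim (Primrec.nat_le.comp (Primrec.const 4) d)).and
        (tn_sig cU Computable.fst (s.comp c).to_comp (s.comp d).to_comp))).or
    (((Sig.prim (Primrec.nat_lt.comp c (Primrec.const 2))).and
      ((Sig.prim (Primrec.nat_lt.comp d (Primrec.const 2))).and (h0.comp Computable.fst))).or
    ((Sig.prim (t.comp c)).and ((Sig.prim (t.comp d)).and (h1.comp Computable.fst)))))

theorem red {m : ℕ} (n : ℕ) (h : ∀ e, (Ex m U e).ncard ≤ 2)
    (hK : Sig 1 (ℕ × ℕ × ℕ) fun q => K m q.1 q.2.1 q.2.2) : Red (Iso m U) (Iso n U) := by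
  have s : Computable fun a : ℕ => a - n :=
    (Primrec.nat_sub.comp Primrec.id (Primrec.const n)).to_comp
  obtain ⟨g, g1, g2⟩ := w_idx (A := fun q : ℕ × ℕ => K m q.1 (q.2.unpair.1 - n) (q.2.unpair.2 - n))
    (hK.comp (Computable.fst.pair ((s.comp (u1.comp Computable.snd)).pair
      (s.comp (u2.comp Computable.snd)))))
  have a : ∀ e s t, Th n U (g e) s t ↔ K m e (enc s - n) (enc t - n) := fun e s t => by
    refine ⟨fun h => ?_, fun h => .rel _ _ (by simpa [g2] using h)⟩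
    induction h with
    | rel _ _ h => simpa [g2] using h
    | refl => exact Or.inl rfl
    | symm _ _ _ i => exact (K_eqv m e).symm i
    | trans _ _ _ _ _ i j => exact (K_eqv m e).trans i j
  have b : ∀ e, Ex n U (g e) = ∅ := fun e => Set.eq_empty_of_forall_notMem fun q hq => by
    obtain ⟨s, rfl⟩ := Quot.exists_rep q
    exact hq (k (enc s - n)) (mk_eq.2 ((a _ _ _).2 (Or.inl (by simp [enc, k]))))
  refine ⟨g, g1, fun e i => ?_⟩
  rw [K_iff h, iso_iff]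
  simp [a, b, enc]

def P (m e : ℕ) (j : Fin m) : Prop := ∃ c, Th m U e (.inl j) (.inr c)

theorem P_sig (m : ℕ) (j : Fin m) : Sig 1 ℕ fun e => P m e j :=
  (Sig.ex (A := fun q : ℕ × ℕ => TN m U q.1 j (m + q.2)) (tn_sig cU Computable.fst
    (Computable.const _) (Primrec.nat_add.comp (Primrec.const m) Primrec.snd).to_comp)).of_eq
    fun _ => ⟨fun ⟨c, h⟩ => ⟨k c, (tn_iff (s := .inl j) (t := .inr (k c))).1 h⟩,
      fun ⟨c, h⟩ => ⟨c, tn_iff.2 h⟩⟩

theorem ex_mem {m e : ℕ} {q : Quot (Th m U e)} :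
    q ∈ Ex m U e ↔ ∃ j, q = Quot.mk _ (.inl j) ∧ ¬ P m e j := by
  constructor
  · intro h
    obtain ⟨j | c, rfl⟩ := Quot.exists_rep q
    · exact ⟨j, rfl, fun ⟨c, a⟩ => h c (mk_eq.2 a)⟩
    · exact absurd rfl (h c)
  · rintro ⟨j, rfl, h⟩ c a
    exact h ⟨c, mk_eq.1 a⟩

theorem ex_le (m e : ℕ) : (Ex m U e).ncard ≤ m := by
  have : Ex m U e ⊆ (fun j : Fin m => Quot.mk (Th m U e) (.inl j)) '' Set.univ := fun q h => by
    obtain ⟨j, rfl, -⟩ := ex_mem.1 h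
    exact ⟨j, trivial, rfl⟩
  refine (Set.ncard_le_ncard this).trans ((Set.ncard_image_le).trans (by simp))

theorem ex0 (m e : ℕ) : (Ex m U e).ncard ≤ 0 ↔ ∀ j, P m e j := by
  rw [Nat.le_zero, Set.ncard_eq_zero ex_fin, Set.eq_empty_iff_forall_notMem]
  exact ⟨fun h j => by_contra fun a => h _ (ex_mem.2 ⟨j, rfl, a⟩),
    fun h q a => let ⟨j, _, b⟩ := ex_mem.1 a; b (h j)⟩

theorem ex1 (e : ℕ) : (Ex 2 U e).ncard ≤ 1 ↔ P 2 e 0 ∨ P 2 e 1 ∨ TN 2 U e 0 1 := by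
  have t : TN 2 U e 0 1 ↔ Quot.mk (Th 2 U e) (.inl 0) = Quot.mk _ (.inl 1) :=
    (tn_iff (s := .inl 0) (t := .inl 1)).trans mk_eq.symm
  rw [Set.ncard_le_one ex_fin, t]
  simp only [ex_mem, Fin.exists_fin_two]
  refine ⟨fun h => by_contra fun a => ?_, by grind⟩
  simp only [not_or] at a
  exact a.2.2 (h _ (Or.inl ⟨rfl, a.1⟩) _ (Or.inr ⟨rfl, a.2.1⟩))

theorem K1 : Sig 1 (ℕ × ℕ × ℕ) fun q => K 1 q.1 q.2.1 q.2.2 :=
  K_sig ((P_sig 1 0).of_eq fun e => by simp only [ex0, Fin.forall_fin_one])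
    ((cs (ceq (Computable.const 0) (Computable.const 0))).of_eq fun e => by simp [ex_le])

theorem K2 : Sig 1 (ℕ × ℕ × ℕ) fun q => K 2 q.1 q.2.1 q.2.2 :=
  K_sig (((P_sig 2 0).and (P_sig 2 1)).of_eq fun e => by simp only [ex0, Fin.forall_fin_two])
    (((P_sig 2 0).or ((P_sig 2 1).or (tn_sig cU Computable.id (Computable.const 0)
      (Computable.const 1)))).of_eq fun e => (ex1 e).symm)

theorem result : (∃ e, Nontrivial (Quot (Th 1 Set.univ e))) ∧
    Red (Iso 1 Set.univ) (Iso 2 Set.univ) ∧ Red (Iso 2 Set.univ) (Iso 1 Set.univ) ∧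
    ¬ Complete (Iso 1 Set.univ) ∧
    ∀ E, Complete E → Red (Iso 1 Set.univ) E ∧ ¬ Red E (Iso 1 Set.univ) := by
  have h1 : ∀ e, (Ex 1 U e).ncard ≤ 2 := fun e => (ex_le 1 e).trans (by omega)
  have a : Sig 1 ((ℕ × ℕ) × ℕ × ℕ) fun q => K 1 q.1.1 q.2.1 q.2.2 :=
    K1.comp ((Computable.fst.comp Computable.fst).pair Computable.snd)
  have b : Sig 1 ((ℕ × ℕ) × ℕ × ℕ) fun q => K 1 q.1.2 q.2.1 q.2.2 :=
    K1.comp ((Computable.snd.comp Computable.fst).pair Computable.snd)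
  have p : Sig 2 (ℕ × ℕ) fun p => ¬ Iso 1 U p.1 p.2 := by
    refine (Sig.exd ((a.succ.and b.neg_succ).or (a.neg_succ.and b.succ))).of_eq fun p => ?_
    simp only [K_iff h1, not_forall, Prod.exists]
    exact exists₂_congr fun s t => by tauto
  obtain ⟨F, f1, f2, f3⟩ := not_complete p
  refine ⟨?_, red 2 h1 K1, red 1 (ex_le 2) K2, fun h => f3 (h.2.2 F f1 f2), fun E hE =>
    ⟨hE.2.2 _ ⟨fun _ => ⟨Equiv.refl _, fun _ => rfl⟩, fun ⟨φ, h⟩ => ⟨φ.symm, fun c => by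
      rw [← h, φ.symm_apply_apply]⟩, fun ⟨φ, h⟩ ⟨ψ, h'⟩ => ⟨φ.trans ψ, fun c => by
      rw [Equiv.trans_apply, h, h']⟩⟩ p.of_neg, fun ⟨g, g1, g2⟩ => ?_⟩⟩
  · obtain ⟨s, -, hs⟩ := w_idx (β := ℕ) (A := fun q => q.2.unpair.1 = q.2.unpair.2)
      (cs (ceq (u1.comp Computable.snd) (u2.comp Computable.snd)))
    refine ⟨s 0, Quot.mk _ (.inr (k 0)), Quot.mk _ (.inr (k 1)), fun h => ?_⟩
    simpa [enc, k] using (th_of_ker (π := enc) (fun _ _ => by simp [hs]) _ _).1 (mk_eq.1 h)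
  · obtain ⟨r, r1, r2⟩ := hE.2.2 F f1 f2
    exact f3 ⟨g ∘ r, g1.comp r1, fun x y => (r2 x y).trans (g2 _ _)⟩

end Pool.Agent.Results.MP_f76ce6_lc.Yes
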